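import Pool.Agent.H.MP_b8847a_al.Main

set_option maxHeartbeats 400000

namespace Pool.Agent.H.MP_a47eec_al

open Pool.Agent.H.MP_b27eb5_al Pool.Agent.H.MP_b8847a_al ExteriorAlgebra

variable {F : Type} [Field F]

/-- left-normed words -/
def wd : (n : ℕ) → (Fin (n + 1) → ℕ) → FreeMagma ℕ
  | 0, a => FreeMagma.of (a 0)
  | n + 1, a => wd n (Fin.init a) * FreeMagma.of (a (Fin.last _))

/-- the standard polynomial in the variables `a` -/
noncomputable def st (F : Type) [Field F] (n : ℕ) (a : Fin (n + 1) → ℕ) : FreeMagma ℕ →₀ F :=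
  ∑ s : Equiv.Perm (Fin (n + 1)), Finsupp.single (wd n (a ∘ s)) (((Equiv.Perm.sign s : ℤˣ) : ℤ) : F)

section

variable (F) (C : Type) [NonUnitalNonAssocRing C] [Module F C] [IsScalarTower F C C]
  [SMulCommClass F C C]

/-- left-normed products -/
noncomputable def lm : (n : ℕ) → MultilinearMap F (fun _ : Fin (n + 1) => C) C
  | 0 => MultilinearMap.ofSubsingleton F C C (0 : Fin 1) LinearMap.id
  | n + 1 => MultilinearMap.uncurryRight ((LinearMap.mul F C).compMultilinearMap (lm n))

theorem lm_zero (v : Fin 1 → C) : lm F C 0 v = v 0 := rfl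

theorem lm_succ (n : ℕ) (v : Fin (n + 2) → C) :
    lm F C (n + 1) v = lm F C n (Fin.init v) * v (Fin.last _) := rfl

theorem lift_wd (ψ : ℕ → C) (n : ℕ) : ∀ a : Fin (n + 1) → ℕ,
    FreeMagma.lift ψ (wd n a) = lm F C n (ψ ∘ a) := by
  induction n with
  | zero => intro a; rfl
  | succ n ih => intro a; rw [wd, map_mul, ih, lm_succ]; rfl

theorem ev_st (ψ : ℕ → C) (n : ℕ) (a : Fin (n + 1) → ℕ) :
    (st F n a).sum (fun m c => c • FreeMagma.lift ψ m) =
      MultilinearMap.alternatization (lm F C n) (ψ ∘ a) := by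
  have : ∀ f : FreeMagma ℕ →₀ F, f.sum (fun m c => c • FreeMagma.lift ψ m) =
      Finsupp.linearCombination F (FreeMagma.lift ψ) f := fun f => rfl
  rw [this, st, map_sum, MultilinearMap.alternatization_apply]
  refine Finset.sum_congr rfl fun s _ => ?_
  rw [Finsupp.linearCombination_single, lift_wd F, Int.cast_smul_eq_zsmul]
  rfl

theorem st_id [Module.Finite F C] (n : ℕ) (h : Module.finrank F C ≤ n) (ψ : ℕ → C)
    (a : Fin (n + 1) → ℕ) : (st F n a).sum (fun m c => c • FreeMagma.lift ψ m) = 0 := by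
  rw [ev_st]
  apply AlternatingMap.map_linearDependent
  intro hl
  have := hl.fintype_card_le_finrank
  simp at this
  omega

end

theorem map_lm {B C : Type} [NonUnitalNonAssocRing B] [Module F B] [IsScalarTower F B B]
    [SMulCommClass F B B] [NonUnitalNonAssocRing C] [Module F C] [IsScalarTower F C C]
    [SMulCommClass F C C] (l : B →ₗ[F] C) (h : ∀ a b, l (a * b) = l a * l b) (n : ℕ) :
    ∀ v : Fin (n + 1) → B, l (lm F B n v) = lm F C n (l ∘ v) := by
  induction n with
  | zero => intro v; rfl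
  | succ n ih => intro v; rw [lm_succ, h, ih, lm_succ]; rfl

section

variable {M : Type} [AddCommGroup M] [Module F M]

theorem lm_ι (n : ℕ) : ∀ v : Fin (n + 1) → M,
    lm F (ExteriorAlgebra F M) n (ι F ∘ v) = ιMulti F (n + 1) v := by
  induction n with
  | zero => intro v; simp [lm_zero]
  | succ n ih =>
    intro v
    rw [lm_succ, ιMulti_apply, List.ofFn_succ_last, List.prod_append, List.prod_singleton,
      ← ιMulti_apply]
    exact congrArg (· * ι F (v (Fin.last _))) (ih (Fin.init v))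

/-- the parity automorphism -/
noncomputable def sg : ExteriorAlgebra F M →ₐ[F] ExteriorAlgebra F M := CliffordAlgebra.involute

theorem sg_ι (v : M) : sg (ι F v) = -ι F v := CliffordAlgebra.involute_ι v

theorem sg_sg (u : ExteriorAlgebra F M) : sg (sg u) = u := CliffordAlgebra.involute_involute u

theorem ι_mul_eq (v : M) (u : ExteriorAlgebra F M) : ι F v * u = sg u * ι F v := by
  induction u using ExteriorAlgebra.induction with
  | algebraMap r => simp [Algebra.commutes]
  | ι w => rw [sg_ι, neg_mul, eq_neg_iff_add_eq_zero, ι_add_mul_swap]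
  | mul a b ha hb => rw [← mul_assoc, ha, mul_assoc, hb, map_mul, mul_assoc]
  | add a b ha hb => rw [mul_add, ha, hb, map_add, add_mul]

theorem mul_odd {u : ExteriorAlgebra F M} (hu : sg u = -u) (a : ExteriorAlgebra F M) :
    a * u = u * sg a := by
  induction a using ExteriorAlgebra.induction with
  | algebraMap r => simp [Algebra.commutes]
  | ι w => rw [ι_mul_eq, hu, sg_ι, neg_mul, mul_neg]
  | mul a b ha hb => rw [mul_assoc, hb, ← mul_assoc, ha, map_mul, mul_assoc]
  | add a b ha hb => rw [add_mul, ha, hb, map_add, mul_add]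

theorem odd_sq [CharZero F] (u : ExteriorAlgebra F M) : (u - sg u) * (u - sg u) = 0 := by
  have hu : sg (u - sg u) = -(u - sg u) := by rw [map_sub, sg_sg, neg_sub]
  have h := mul_odd hu (u - sg u)
  rw [hu, mul_neg, eq_neg_iff_add_eq_zero, ← two_smul F] at h
  exact (smul_eq_zero.1 h).resolve_left two_ne_zero

/-- the product of the alternative algebra -/
noncomputable def pq (x y : ExteriorAlgebra F M × ExteriorAlgebra F M) :
    ExteriorAlgebra F M × ExteriorAlgebra F M :=
  (x.1 * y.1, x.1 * y.2 + x.2 * sg y.1 + (x.1 - sg x.1) * (y.1 - sg y.1))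

/-- the product as a bilinear map -/
noncomputable def mq (F M : Type) [Field F] [AddCommGroup M] [Module F M] :
    (ExteriorAlgebra F M × ExteriorAlgebra F M) →ₗ[F]
    (ExteriorAlgebra F M × ExteriorAlgebra F M) →ₗ[F]
    (ExteriorAlgebra F M × ExteriorAlgebra F M) :=
  LinearMap.mk₂ F pq
    (fun x x' y => by ext <;> simp [pq] <;> noncomm_ring)
    (fun r x y => by ext <;> simp [pq, ← smul_sub])
    (fun x y y' => by ext <;> simp [pq] <;> noncomm_ring)
    (fun r x y => by ext <;> simp [pq, ← smul_sub])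

theorem pq_assoc (x y z : ExteriorAlgebra F M × ExteriorAlgebra F M) :
    pq (pq x y) z = pq x (pq y z) -
      (0, (x.1 - sg x.1) * (y.1 - sg y.1) * (z.1 - sg z.1)) := by
  ext
  · simp [pq, mul_assoc]
  · simp only [pq, map_mul, Prod.snd_sub]
    noncomm_ring

theorem alt [CharZero F] (x y : Alg (mq F M)) :
    (x * x) * y = x * (x * y) ∧ (y * x) * x = y * (x * x) := by
  constructor
  · have := pq_assoc (F := F) (M := M) x x y
    rw [odd_sq, zero_mul] at this
    exact this.trans (sub_zero _)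
  · have := pq_assoc (F := F) (M := M) y x x
    rw [mul_assoc, odd_sq, mul_zero] at this
    exact this.trans (sub_zero _)

/-- the first coordinate -/
noncomputable def fs : Alg (mq F M) →ₗ[F] ExteriorAlgebra F M :=
  (LinearMap.fst F _ _).comp (toA (mq F M)).symm.toLinearMap

theorem fs_mul (a b : Alg (mq F M)) : fs (a * b) = fs a * fs b := rfl

theorem fs_st (e : ℕ → M) (n : ℕ) (a : Fin (n + 1) → ℕ) :
    fs ((st F n a).sum (fun m c => c • FreeMagma.lift (fun i => toA (mq F M) (ι F (e i), 0)) m))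
      = (n + 1).factorial • ιMulti F (n + 1) (e ∘ a) := by
  rw [ev_st, MultilinearMap.alternatization_apply, map_sum]
  have : ∀ s : Equiv.Perm (Fin (n + 1)), fs (Equiv.Perm.sign s • (lm F (Alg (mq F M)) n).domDomCongr s
      ((fun i => toA (mq F M) (ι F (e i), 0)) ∘ a)) = ιMulti F (n + 1) (e ∘ a) := by
    intro s
    rw [MultilinearMap.domDomCongr_apply, Units.smul_def, map_zsmul,
      map_lm (fs (F := F) (M := M)) fs_mul]
    have h := lm_ι (F := F) n ((e ∘ a) ∘ s)
    rw [AlternatingMap.map_perm] at h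
    have h' : lm F (ExteriorAlgebra F M) n (fs ∘ fun i =>
      ((fun i => toA (mq F M) (ι F (e i), 0)) ∘ a) (s i)) = _ := h
    rw [h', ← Units.smul_def, smul_smul, Int.units_mul_self, one_smul]
  rw [Finset.sum_congr rfl fun s _ => this s, Finset.sum_const, Finset.card_univ,
    Fintype.card_perm, Fintype.card_fin]

theorem sg_nine (v : Fin 9 → M) : sg (ιMulti F 9 v) = -ιMulti F 9 v := by
  have h := CliffordAlgebra.involute_prod_map_ι (Q := (0 : QuadraticForm F M)) (List.ofFn v)
  rw [List.map_ofFn, List.length_ofFn, show ((-1 : F) ^ 9) = -1 by norm_num, neg_smul,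
    one_smul] at h
  exact h

end

/-- the basis vectors -/
def ee (F : Type) [Field F] (i : ℕ) : Fin 27 → F := fun j => if (j : ℕ) = i then 1 else 0

theorem top_ne : ιMulti F 9 (ee F ∘ fun i : Fin 9 => (i : ℕ)) *
    ιMulti F 9 (ee F ∘ fun i : Fin 9 => 9 + (i : ℕ)) *
    ιMulti F 9 (ee F ∘ fun i : Fin 9 => 18 + (i : ℕ)) ≠ 0 := by
  rw [ιMulti_mul_ιMulti, ιMulti_mul_ιMulti]
  have : Fin.append (Fin.append (ee F ∘ fun i : Fin 9 => (i : ℕ))
      (ee F ∘ fun i : Fin 9 => 9 + (i : ℕ))) (ee F ∘ fun i : Fin 9 => 18 + (i : ℕ)) =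
      fun i : Fin 27 => (Pi.single i (1 : F) : Fin 27 → F) := by
    have h1 : ∀ i : Fin 27, (Pi.single i (1 : F) : Fin 27 → F) = ee F i := by
      intro i
      funext j
      simp [ee, Pi.single_apply, Fin.ext_iff]
    funext i
    rw [h1]
    refine Fin.addCases (m := 18) (n := 9) (fun i => ?_) (fun i => ?_) i
    · rw [Fin.append_left]
      refine Fin.addCases (m := 9) (n := 9) (fun i => ?_) (fun i => ?_) i
      · rw [Fin.append_left]; rfl
      · rw [Fin.append_right]; rfl
    · rw [Fin.append_right]; rfl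
  rw [this]
  intro h
  have h2 := tau_top (F := F) 27
  rw [← ιMulti_apply, h, map_zero] at h2
  exact zero_ne_one h2

theorem not_assoc [CharZero F] : ∃ φ : ℕ → Alg (mq F (Fin 27 → F)),
    ((st F 8 fun i => (i : ℕ)).sum (fun m c => c • FreeMagma.lift φ m) *
      (st F 8 fun i => 9 + (i : ℕ)).sum (fun m c => c • FreeMagma.lift φ m)) *
      (st F 8 fun i => 18 + (i : ℕ)).sum (fun m c => c • FreeMagma.lift φ m) ≠
    (st F 8 fun i => (i : ℕ)).sum (fun m c => c • FreeMagma.lift φ m) *
      ((st F 8 fun i => 9 + (i : ℕ)).sum (fun m c => c • FreeMagma.lift φ m) *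
      (st F 8 fun i => 18 + (i : ℕ)).sum (fun m c => c • FreeMagma.lift φ m)) := by
  refine ⟨fun i => toA _ (ι F (ee F i), 0), ?_⟩
  have h1 := fs_st (F := F) (ee F) 8 fun i => (i : ℕ)
  have h2 := fs_st (F := F) (ee F) 8 fun i => 9 + (i : ℕ)
  have h3 := fs_st (F := F) (ee F) 8 fun i => 18 + (i : ℕ)
  generalize (st F 8 fun i => (i : ℕ)).sum (fun m c => c • FreeMagma.lift
    (fun i => toA (mq F (Fin 27 → F)) (ι F (ee F i), 0)) m) = x at h1 ⊢
  generalize (st F 8 fun i => 9 + (i : ℕ)).sum (fun m c => c • FreeMagma.lift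
    (fun i => toA (mq F (Fin 27 → F)) (ι F (ee F i), 0)) m) = y at h2 ⊢
  generalize (st F 8 fun i => 18 + (i : ℕ)).sum (fun m c => c • FreeMagma.lift
    (fun i => toA (mq F (Fin 27 → F)) (ι F (ee F i), 0)) m) = z at h3 ⊢
  intro h
  have k := pq_assoc (F := F) (M := Fin 27 → F) x y z
  have k1 : pq (F := F) (M := Fin 27 → F) (pq x y) z = pq x (pq y z) := h
  rw [k1, eq_comm, sub_eq_self, Prod.mk_eq_zero] at k
  have k2 : (fs x - sg (fs x)) * (fs y - sg (fs y)) * (fs z - sg (fs z)) = 0 := k.2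
  have aux : ∀ v : Fin 9 → Fin 27 → F, (8 + 1).factorial • ιMulti F (8 + 1) v -
      sg ((8 + 1).factorial • ιMulti F (8 + 1) v) =
      ((2 * (Nat.factorial 9) : ℕ) : F) • ιMulti F 9 v := by
    intro v
    have := sg_nine (F := F) v
    rw [map_nsmul, this, smul_neg, sub_neg_eq_add, Nat.cast_smul_eq_nsmul, two_mul, add_smul]
  rw [h1, h2, h3, aux, aux, aux] at k2
  have hc : ((2 * (Nat.factorial 9) : ℕ) : F) ≠ 0 :=
    Nat.cast_ne_zero.2 (Nat.mul_ne_zero two_ne_zero (Nat.factorial_ne_zero 9))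
  generalize ((2 * (Nat.factorial 9) : ℕ) : F) = c at k2 hc
  simp only [smul_mul_assoc, mul_smul_comm, smul_eq_zero, hc, false_or] at k2
  exact top_ne k2

/-- the Cayley-Dickson product -/
noncomputable def cd (F : Type) [Field F] :
    (Matrix (Fin 2) (Fin 2) F × Matrix (Fin 2) (Fin 2) F) →ₗ[F]
    (Matrix (Fin 2) (Fin 2) F × Matrix (Fin 2) (Fin 2) F) →ₗ[F]
    (Matrix (Fin 2) (Fin 2) F × Matrix (Fin 2) (Fin 2) F) :=
  have ha : ∀ a b : Matrix (Fin 2) (Fin 2) F, (a + b).adjugate = a.adjugate + b.adjugate := by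
    intro a b
    ext i j
    fin_cases i <;> fin_cases j <;> simp [Matrix.adjugate_fin_two, add_comm]
  have hs : ∀ (r : F) (a : Matrix (Fin 2) (Fin 2) F), (r • a).adjugate = r • a.adjugate := by
    intro r a
    simp [Matrix.adjugate_smul]
  LinearMap.mk₂ F
    (fun x y => (x.1 * y.1 + Matrix.adjugate y.2 * x.2, y.2 * x.1 + x.2 * Matrix.adjugate y.1))
    (fun x x' y => by ext1 <;> simp [add_mul, mul_add] <;> abel)
    (fun r x y => by ext1 <;> simp)
    (fun x y y' => by ext1 <;> simp [ha, add_mul, mul_add] <;> abel)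
    (fun r x y => by ext1 <;> simp [hs])

instance : Module.Finite F (Alg (cd F)) := Module.Finite.equiv (toA (cd F))

theorem finrank_cd : Module.finrank F (Alg (cd F)) ≤ 8 := by
  rw [← (toA (cd F)).finrank_eq]
  simp [Module.finrank_matrix]

end Pool.Agent.H.MP_a47eec_al
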